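import Pool.Agent.MWFE.StmtsC
import Pool.Agent.Helper10_MWE.FCE
import Pool.Agent.Helper11_MWD.FIN3

/-! # Squad MWFE, row CLB: a step in the class -/

set_option autoImplicit false

namespace Pool.Agent.MWFE.H64

open Pool.Agent.Helper14_MV Pool.Agent.Helper2_MV Pool.Agent.MVD Pool.Agent.MWFE
open Pool.Agent.MWE (Can XX fxy dxy dx dy up cp L4 pr Xs xl isx Fs nd nr)
open Pool.Agent.MWGR (cb)

theorem up_self (B : ℕ → List ℕ) (r : ℕ) (D : List ℕ) : up B r D r = D := by
  simp [up]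

theorem up_ne (B : ℕ → List ℕ) {r q : ℕ} (D : List ℕ) (h : q ≠ r) : up B r D q = B q := by
  simp [up, h]

theorem bw_congr (R : List ℕ) (B B' : ℕ → List ℕ) (h : ∀ r ∈ R, B r = B' r) :
    Bw R B = Bw R B' := by
  induction R with
  | nil => rfl
  | cons a R ih =>
    have h1 := ih (fun r hr => h r (List.mem_cons_of_mem _ hr))
    unfold Bw at h1 ⊢
    rw [List.flatMap_cons, List.flatMap_cons, h1, h a List.mem_cons_self]

theorem bw_append (R1 R2 : List ℕ) (B : ℕ → List ℕ) : Bw (R1 ++ R2) B = Bw R1 B ++ Bw R2 B := by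
  unfold Bw
  rw [List.flatMap_append]

theorem bw_cons (r : ℕ) (R : List ℕ) (B : ℕ → List ℕ) :
    Bw (r :: R) B = B r ++ ((3 * r + 2) :: Bw R B) := by
  unfold Bw
  rw [List.flatMap_cons, List.append_assoc]
  rfl

theorem bw_up {R1 R2 : List ℕ} {r : ℕ} (B : ℕ → List ℕ) (D : List ℕ)
    (h : (R1 ++ r :: R2).Nodup) :
    Bw (R1 ++ r :: R2) (up B r D) = Bw R1 B ++ (D ++ (3 * r + 2) :: Bw R2 B) := by
  have h1 : r ∉ R1 ∧ r ∉ R2 := by
    rw [List.nodup_append] at h
    refine ⟨fun hc => h.2.2 r hc r List.mem_cons_self rfl, ?_⟩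
    exact (List.nodup_cons.1 h.2.1).1
  rw [bw_append, bw_cons, up_self,
    bw_congr R1 (up B r D) B (fun q hq => up_ne B D (fun hc => h1.1 (hc ▸ hq))),
    bw_congr R2 (up B r D) B (fun q hq => up_ne B D (fun hc => h1.2 (hc ▸ hq)))]

theorem sfr_up {B : ℕ → List ℕ} (hB : ∀ r, SFr (B r)) {D : List ℕ} (hD : SFr D) (r0 : ℕ) :
    ∀ r, SFr (up B r0 D r) := by
  intro r
  unfold up
  split_ifs
  · exact hD
  · exact hB r

/-- the padded words depend only on the blocks with `r` in `R` -/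
theorem pzc (n z : ℕ) {R : List ℕ} {B B' : ℕ → List ℕ} (h : ∀ r ∈ R, B r = B' r) :
    Bw R (pz n z B) = Bw R (pz n z B') := by
  apply bw_congr
  intro r hr
  unfold pz up
  by_cases h0 : r = 0
  · rw [if_pos h0, if_pos h0, h 0 (h0 ▸ hr)]
  · rw [if_neg h0, if_neg h0, h r hr]

/-- row CLB -/
theorem clb (hcl0 : Cl0Stmt) (hcl1 : Cl1Stmt) (hclp : ClpStmt) : ClbStmt := by
  intro n β m R c X B B' e e' hS hX sB se sB' se' hr P1 Y Y' P2 Q1 Λ Q2 hw hw' hP sY sΛ hYY hQ
  have hnd : R.Nodup := hS.pR.nodup_iff.2 List.nodup_range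
  by_cases hY0 : Y = []
  · subst hY0
    have h1 : Y' = [] := List.Perm.eq_nil hYY.symm
    subst h1
    have h2 := Pool.Agent.MWD.H11.uniF R B B' e e' hnd (fun r _ => sB r) (fun r _ => sB' r) se se'
      (hw.trans hw'.symm)
    refine ⟨X, hX, ?_⟩
    rw [← pzc n (3 * m + 1) h2.1, ← h2.2]
    exact hr
  have sY' : SFr Y' := fun a ha => sY a (hYY.mem_iff.2 ha)
  rcases Pool.Agent.MWE.H10.fce R B e P1 Y P2 (fun r _ => sB r) sY hY0 hw with
    ⟨R1, rY, R2, a, c', hR, hBr, hP1, hP2⟩ | ⟨a, c', he, hP1, hP2⟩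
  swap
  · -- `Y` in the tail
    have se1 : SFr (a ++ (Y' ++ c')) := by
      intro v hv
      rw [List.mem_append, List.mem_append] at hv
      rcases hv with hv | hv | hv
      · exact se v (by rw [he]; simp [hv])
      · exact sY' v hv
      · exact se v (by rw [he]; simp [hv])
    have h3 : Bw R B ++ (a ++ (Y' ++ c')) = Bw R B' ++ e' := by
      rw [hw', hP1, hP2, List.append_assoc]
    have h2 := Pool.Agent.MWD.H11.uniF R B B' _ e' hnd (fun r _ => sB r) (fun r _ => sB' r) se1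
      se' h3
    have h4 := (hclp n β m R c X B e hS hX sB se hr).2 a Y Y' c' he hYY
    refine ⟨X, hX, ?_⟩
    rw [← pzc n (3 * m + 1) h2.1, ← h2.2]
    exact h4
  -- `Y` in block `rY`
  have sc' : SFr c' := by
    intro v hv
    exact sB rY v (by rw [hBr]; simp [hv])
  have sD : SFr (a ++ (Y' ++ c')) := by
    intro v hv
    rw [List.mem_append, List.mem_append] at hv
    rcases hv with hv | hv | hv
    · exact sB rY v (by rw [hBr]; simp [hv])
    · exact sY' v hv
    · exact sc' v hv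
  have hnew : Bw R (up B rY (a ++ (Y' ++ c'))) ++ e = Bw R B' ++ e' := by
    rw [hw', hP1, hP2, hR, bw_up B _ (hR ▸ hnd)]
    simp only [List.append_assoc, List.cons_append]
  have h2 := Pool.Agent.MWD.H11.uniF R _ B' e e' hnd (fun r _ => sfr_up sB sD rY r)
    (fun r _ => sB' r) se se' hnew
  have hrR : rY ∈ R := by
    rw [hR]
    simp
  have hRt : Rt R B e rY c' Λ := by
    by_cases hΛ0 : Λ = []
    · left
      refine ⟨c', [], ?_⟩
      rw [hΛ0]
      simp
    have hn2 : (rY :: R2).Nodup := by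
      have := hR ▸ hnd
      exact (List.nodup_append.1 this).2.1
    have hE : Bw (rY :: R2) (up B rY c') ++ e = Q1 ++ (Λ ++ Q2) := by
      rw [← hP, hP2]
      have := bw_up (R1 := []) B c' (by simpa using hn2)
      simp only [List.nil_append] at this
      rw [this]
      simp [Bw]
    rcases Pool.Agent.MWE.H10.fce (rY :: R2) (up B rY c') e Q1 Λ Q2
      (fun r _ => sfr_up sB sc' rY r) sΛ hΛ0 hE with
      ⟨R1', r', R2', a', c'', hR', hBr', -, -⟩ | ⟨a', c'', he', -, -⟩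
    · by_cases h1 : r' = rY
      · subst h1
        rw [up_self] at hBr'
        exact Or.inl ⟨a', c'', hBr'⟩
      · rw [up_ne B c' h1] at hBr'
        right
        left
        rcases R1' with _ | ⟨s, R1'⟩
        · exfalso
          rw [List.nil_append, List.cons.injEq] at hR'
          exact h1 hR'.1.symm
        · rw [List.cons_append, List.cons.injEq] at hR'
          refine ⟨r', ?_, ⟨R1, R1', R2', ?_⟩, a', c'', hBr'⟩
          · rw [hR, hR'.2]
            simp
          · rw [hR, hR'.2]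
    · exact Or.inr (Or.inr ⟨a', c'', he'⟩)
  by_cases hr0 : rY = 0
  · subst hr0
    obtain ⟨X', hX', h5⟩ := hcl0 n β m R c X B e hS hX sB se hr a Y Y' c' Λ hBr hYY hQ hRt
    refine ⟨X', hX', ?_⟩
    rw [← pzc n (3 * m + 1) h2.1, ← h2.2]
    exact h5
  by_cases hr1 : rY = 1
  · subst hr1
    have h5 := hcl1 n β m R c X B e hS hX sB se hr a Y Y' c' Λ hBr hYY hQ hRt
    refine ⟨X, hX, ?_⟩
    rw [← pzc n (3 * m + 1) h2.1, ← h2.2]
    exact h5
  · have h5 := (hclp n β m R c X B e hS hX sB se hr).1 rY hrR hr0 hr1 a Y Y' c' Λ hBr hYY hQ hRt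
    refine ⟨X, hX, ?_⟩
    rw [← pzc n (3 * m + 1) h2.1, ← h2.2]
    exact h5

end Pool.Agent.MWFE.H64
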